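import Pool.Agent.H295R3.NA.Stmts
import Pool.Agent.Helper923.PNT

set_option autoImplicit false

open Finset ArithmeticFunction Filter Topology

namespace Pool.Agent.H295R3.NA

open Classical in
/-- the free numbers -/
noncomputable def SV_F (l Y : ℕ) : Finset ℕ := (Icc 1 Y).filter (fun m => Free l m)

theorem SV_G (l Y : ℕ) : GG l Y = ((SV_F l Y).card : ℝ) := rfl

theorem SV_H (l Y : ℕ) : HH l Y = ∑ m ∈ SV_F l Y, (1 : ℝ) / m := rfl

theorem SV_mem (l Y m : ℕ) : m ∈ SV_F l Y ↔ (1 ≤ m ∧ m ≤ Y) ∧ Free l m := by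
  classical
  simp only [SV_F, Finset.mem_filter, Finset.mem_Icc]

theorem SV_inj {α β : Type*} [DecidableEq β] (s : Finset α) (t : Finset β) (i : α → β) (g : α → ℝ)
    (f : β → ℝ) (hi : ∀ x ∈ s, i x ∈ t) (hinj : ∀ x ∈ s, ∀ y ∈ s, i x = i y → x = y)
    (hg : ∀ x ∈ s, g x = f (i x)) (hf : ∀ y ∈ t, 0 ≤ f y) : ∑ x ∈ s, g x ≤ ∑ y ∈ t, f y := by
  rw [Finset.sum_congr rfl hg, ← Finset.sum_image (f := f) (g := i) (s := s)
    (fun x hx y hy h => hinj x hx y hy h)]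
  exact Finset.sum_le_sum_of_subset_of_nonneg (Finset.image_subset_iff.2 hi)
    (fun y hy _ => hf y hy)

/-- upper bound for the sum of logarithms -/
theorem SV_up (l Y : ℕ) : ∑ m ∈ SV_F l Y, Real.log m ≤
    ∑ m ∈ SV_F l Y, Chebyshev.psi ((Y / m : ℕ) : ℝ) := by
  have e1 : ∑ m ∈ SV_F l Y, Real.log m =
      ∑ x ∈ (SV_F l Y).sigma (fun m => m.divisors), vonMangoldt x.2 := by
    rw [Finset.sum_sigma]
    exact Finset.sum_congr rfl fun m _ => vonMangoldt_sum.symm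
  have e2 : ∑ m ∈ SV_F l Y, Chebyshev.psi ((Y / m : ℕ) : ℝ) =
      ∑ x ∈ (SV_F l Y).sigma (fun m => Ioc 0 (Y / m)), vonMangoldt x.2 := by
    rw [Finset.sum_sigma]
    refine Finset.sum_congr rfl fun m _ => ?_
    unfold Chebyshev.psi
    rw [Nat.floor_natCast]
  rw [e1, e2]
  refine SV_inj _ _ (fun x => ⟨x.1 / x.2, x.2⟩) _ _ ?_ ?_ (fun x _ => rfl)
    (fun x _ => vonMangoldt_nonneg)
  · rintro ⟨m, d⟩ hx
    rw [Finset.mem_sigma, SV_mem, Nat.mem_divisors] at hx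
    simp only at hx
    obtain ⟨⟨⟨h1, h2⟩, h3⟩, h4, h5⟩ := hx
    have hd : 0 < d := Nat.pos_of_dvd_of_pos h4 h1
    have hq : 0 < m / d := Nat.div_pos (Nat.le_of_dvd h1 h4) hd
    rw [Finset.mem_sigma, SV_mem, Finset.mem_Ioc]
    refine ⟨⟨⟨hq, (Nat.div_le_self m d).trans h2⟩, ?_⟩, hd, ?_⟩
    · intro q hqp hql hqd
      exact h3 q hqp hql (hqd.trans (Nat.div_dvd_of_dvd h4))
    · simp only
      rw [Nat.le_div_iff_mul_le hq, Nat.mul_div_cancel' h4]
      exact h2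
  · rintro ⟨m, d⟩ hx ⟨m', d'⟩ hx' h
    rw [Finset.mem_sigma, Nat.mem_divisors] at hx hx'
    simp only at hx hx'
    have h1 : m / d = m' / d' := congrArg Sigma.fst h
    have h2 : d = d' := by
      have := congrArg (fun x : (Σ _ : ℕ, ℕ) => x.2) h
      exact this
    subst h2
    have h3 : m = m' := by
      rw [← Nat.mul_div_cancel' hx.2.1, h1, Nat.mul_div_cancel' hx'.2.1]
    subst h3
    rfl

/-- the allowed primes -/
def SV_P (l y : ℕ) : Finset ℕ := (Ioc 0 y).filter (fun p : ℕ => p.Prime ∧ ¬ l ∣ p + 1)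

/-- lower bound for the sum of logarithms -/
theorem SV_low (l Y : ℕ) : ∑ m ∈ SV_F l Y, ∑ p ∈ SV_P l (Y / m), Real.log p ≤
    ∑ m ∈ SV_F l Y, Real.log m := by
  have e1 : ∑ m ∈ SV_F l Y, ∑ p ∈ m.primeFactors, Real.log p ≤ ∑ m ∈ SV_F l Y, Real.log m := by
    refine Finset.sum_le_sum fun m hm => ?_
    have hm1 := ((SV_mem l Y m).1 hm).1.1
    rw [← Real.log_prod (fun p hp => by
      have := (Nat.prime_of_mem_primeFactors hp).pos
      positivity)]
    have h1 : ∏ p ∈ m.primeFactors, p ≤ m := Nat.le_of_dvd hm1 (Nat.prod_primeFactors_dvd m)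
    have h2 : 0 < ∏ p ∈ m.primeFactors, p :=
      Finset.prod_pos fun p hp => (Nat.prime_of_mem_primeFactors hp).pos
    rw [← Nat.cast_prod]
    exact Real.log_le_log (by exact_mod_cast h2) (by exact_mod_cast h1)
  refine le_trans ?_ e1
  rw [← Finset.sum_sigma (f := fun x : (Σ _ : ℕ, ℕ) => Real.log x.2),
    ← Finset.sum_sigma (f := fun x : (Σ _ : ℕ, ℕ) => Real.log x.2)]
  refine SV_inj _ _ (fun x => ⟨x.1 * x.2, x.2⟩) _ _ ?_ ?_ (fun x _ => rfl)
    (fun x _ => Real.log_natCast_nonneg _)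
  · rintro ⟨m, p⟩ hx
    rw [Finset.mem_sigma, SV_mem, SV_P, Finset.mem_filter, Finset.mem_Ioc] at hx
    simp only at hx
    obtain ⟨⟨⟨h1, h2⟩, h3⟩, ⟨h4, h5⟩, h6, h7⟩ := hx
    rw [Finset.mem_sigma, SV_mem, Nat.mem_primeFactors]
    have h8 : m * p ≤ Y := by
      rw [mul_comm]
      exact (Nat.le_div_iff_mul_le h1).1 h5
    refine ⟨⟨⟨Nat.mul_pos h1 h4, h8⟩, ?_⟩, h6, Dvd.intro_left m rfl, ?_⟩
    · intro q hqp hql hqd
      rcases (Nat.Prime.dvd_mul hqp).1 hqd with h | h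
      · exact h3 q hqp hql h
      · rw [(Nat.prime_dvd_prime_iff_eq hqp h6).1 h] at hql
        exact h7 hql
    · exact (Nat.mul_pos h1 h4).ne'
  · rintro ⟨m, p⟩ hx ⟨m', p'⟩ hx' h
    rw [Finset.mem_sigma, SV_P, Finset.mem_filter] at hx
    simp only at hx
    have h1 : m * p = m' * p' := congrArg Sigma.fst h
    have h2 : p = p' := by
      have := congrArg (fun x : (Σ _ : ℕ, ℕ) => x.2) h
      exact this
    subst h2
    have h3 : m = m' := Nat.eq_of_mul_eq_mul_right hx.2.2.1.pos h1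
    subst h3
    rfl

theorem SV_P_sum (l y : ℕ) : ∑ p ∈ SV_P l y, Real.log p =
    Chebyshev.theta (y : ℝ) -
      ∑ q ∈ (Icc 1 y).filter (fun q : ℕ => q.Prime ∧ l ∣ q + 1), Real.log q := by
  have h : Chebyshev.theta (y : ℝ) = ∑ p ∈ (Ioc 0 y).filter (fun p : ℕ => p.Prime), Real.log p := by
    unfold Chebyshev.theta
    rw [Nat.floor_natCast]
  rw [h, ← Finset.sum_filter_add_sum_filter_not ((Ioc 0 y).filter (fun p : ℕ => p.Prime))
    (fun p => l ∣ p + 1), Finset.filter_filter, Finset.filter_filter]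
  have : Icc 1 y = Ioc 0 y := by
    ext x; rw [Finset.mem_Icc, Finset.mem_Ioc]; omega
  rw [this]
  unfold SV_P
  ring

theorem SV_psi : ∀ δ : ℝ, 0 < δ → ∃ C : ℝ, 0 < C ∧ ∀ y : ℕ,
    Chebyshev.psi (y : ℝ) ≤ (1 + δ) * y + C ∧ (1 - δ) * y - C ≤ Chebyshev.theta (y : ℝ) := by
  intro δ hδ
  have h1 := (Pool.Agent.Helper923.PNT.psi_div_tendsto).eventually
    (gt_mem_nhds (show (1 : ℝ) < 1 + δ by linarith))
  have h2 := (Pool.Agent.Helper923.PNT.theta_div_tendsto).eventually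
    (lt_mem_nhds (show (1 : ℝ) - δ < 1 by linarith))
  obtain ⟨x0, hx0⟩ := Filter.eventually_atTop.1 (h1.and h2)
  obtain ⟨x1, hx1⟩ : ∃ x1 : ℝ, x1 = max x0 1 := ⟨_, rfl⟩
  have hp0 : 0 ≤ Chebyshev.psi x1 := Chebyshev.psi_nonneg x1
  have hx11 : 1 ≤ x1 := by rw [hx1]; exact le_max_right _ _
  refine ⟨Chebyshev.psi x1 + x1, by linarith, fun y => ?_⟩
  have hy0 : (0 : ℝ) ≤ y := Nat.cast_nonneg y
  rcases le_total x1 (y : ℝ) with h | h
  · have h3 := hx0 y ((le_max_left _ _).trans (hx1 ▸ h))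
    have hy : (0 : ℝ) < y := by linarith
    rw [div_lt_iff₀ hy, lt_div_iff₀ hy] at h3
    constructor
    · linarith [h3.1]
    · linarith [h3.2]
  · constructor
    · have := Chebyshev.psi_mono h
      have h4 : 0 ≤ (1 + δ) * (y : ℝ) := by positivity
      linarith
    · have := Chebyshev.theta_nonneg (y : ℝ)
      have h4 : (1 - δ) * (y : ℝ) ≤ y := by nlinarith
      linarith

theorem SV_logs (l Y : ℕ) (hY : 1 ≤ Y) :
    ∑ m ∈ SV_F l Y, (Real.log Y - Real.log m) ≤ Y := by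
  have hYr : (1 : ℝ) ≤ Y := by exact_mod_cast hY
  have h1 : ∑ m ∈ SV_F l Y, (Real.log Y - Real.log m) ≤
      ∑ m ∈ Icc 1 Y, (Real.log Y - Real.log m) := by
    refine Finset.sum_le_sum_of_subset_of_nonneg
      (fun m hm => Finset.mem_Icc.2 ((SV_mem l Y m).1 hm).1) fun m hm _ => ?_
    rw [Finset.mem_Icc] at hm
    have : Real.log m ≤ Real.log Y :=
      Real.log_le_log (by exact_mod_cast hm.1) (by exact_mod_cast hm.2)
    linarith
  refine h1.trans ?_
  rw [Finset.sum_sub_distrib, Finset.sum_const, Nat.card_Icc, nsmul_eq_mul]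
  have h2 : ∑ m ∈ Icc 1 Y, Real.log (m : ℝ) = Real.log (Y.factorial : ℝ) := by
    rw [← Real.log_prod (fun m hm => by
      rw [Finset.mem_Icc] at hm
      have : (m : ℝ) ≠ 0 := by
        have := hm.1
        positivity
      exact this), ← Nat.cast_prod]
    have e : Icc 1 Y = Ico 1 (Y + 1) := by
      ext x; rw [Finset.mem_Icc, Finset.mem_Ico]; omega
    rw [e, Finset.prod_Ico_id_eq_factorial]
  rw [h2, Nat.add_sub_cancel]
  have h3 := Real.pow_div_factorial_le_exp (x := (Y : ℝ)) (by linarith) Y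
  have hf : (0 : ℝ) < (Y.factorial : ℝ) := by positivity
  have h4 := Real.log_le_log (by positivity) h3
  rw [Real.log_exp, Real.log_div (by positivity) hf.ne', Real.log_pow] at h4
  exact h4

/-- `L E` is large -/
theorem SV_LE (l : ℕ) (hl : 3 ≤ l) (Y : ℕ) (K : ℝ) (hK : 1 ≤ K) (hL : K ^ 2 ≤ Real.log Y) :
    K ≤ Real.log Y * EE l Y := by
  have hL1 : 1 ≤ Real.log Y := by nlinarith
  have hL0 : 0 < Real.log Y := by linarith
  have hll : 0 ≤ Real.log (Real.log Y) := Real.log_nonneg hL1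
  have hl' : (3 : ℝ) ≤ l := by exact_mod_cast hl
  unfold EE LL
  have h1 : -(Real.log (Real.log Y)) / 2 ≤ -(Real.log (Real.log Y)) / ((l : ℝ) - 1) := by
    rw [neg_div, neg_div, neg_le_neg_iff]
    exact div_le_div_of_nonneg_left hll (by norm_num) (by linarith)
  have h2 : Real.exp (Real.log (Real.log Y) / 2) ≤
      Real.log Y * Real.exp (-(Real.log (Real.log Y)) / ((l : ℝ) - 1)) := by
    calc Real.exp (Real.log (Real.log Y) / 2) =
        Real.exp (Real.log (Real.log Y)) * Real.exp (-(Real.log (Real.log Y)) / 2) := by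
          rw [← Real.exp_add]; congr 1; ring
      _ = Real.log Y * Real.exp (-(Real.log (Real.log Y)) / 2) := by rw [Real.exp_log hL0]
      _ ≤ _ := mul_le_mul_of_nonneg_left (Real.exp_le_exp.2 h1) hL0.le
  refine le_trans ?_ h2
  have h3 : Real.exp (Real.log (Real.log Y) / 2) ^ 2 = Real.log Y := by
    rw [← Real.exp_nat_mul]
    have : ((2 : ℕ) : ℝ) * (Real.log (Real.log Y) / 2) = Real.log (Real.log Y) := by
      push_cast; ring
    rw [this, Real.exp_log hL0]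
  refine le_of_pow_le_pow_left₀ (n := 2) (by norm_num) (Real.exp_pos _).le ?_
  rw [h3]; exact hL

theorem taskSV : TaskSV := by
  intro hHS hPSI ε hε
  obtain ⟨δ, hδ⟩ : ∃ δ : ℝ, δ = min (ε / 10) (1 / 20) := ⟨_, rfl⟩
  have hδ0 : 0 < δ := by rw [hδ]; exact lt_min (by linarith) (by norm_num)
  have hδ1 : δ ≤ 1 / 20 := by rw [hδ]; exact min_le_right _ _
  have hδε : 10 * δ ≤ ε := by
    have : δ ≤ ε / 10 := by rw [hδ]; exact min_le_left _ _
    linarith
  obtain ⟨l1, Y1, h1⟩ := hHS δ hδ0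
  obtain ⟨l2, C2, hC2, h2⟩ := hPSI δ hδ0
  obtain ⟨C3, hC3, h3⟩ := SV_psi δ hδ0
  obtain ⟨C, hC⟩ : ∃ C : ℝ, C = C2 + C3 + 1 := ⟨_, rfl⟩
  obtain ⟨B, hB⟩ : ∃ B : ℝ, B = C / δ + (1 / δ) ^ 2 + 1 := ⟨_, rfl⟩
  have hCδ : 0 ≤ C / δ := by rw [hC]; positivity
  refine ⟨max (max l1 l2) 3, max Y1 ⌈Real.exp B⌉₊, fun Y hY l hlp hl hlY => ?_⟩
  have hl1 : l1 ≤ l := ((le_max_left _ _).trans (le_max_left _ _)).trans hl
  have hl2 : l2 ≤ l := ((le_max_right _ _).trans (le_max_left _ _)).trans hl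
  have hl3 : 3 ≤ l := (le_max_right _ _).trans hl
  have hY1 : Y1 ≤ Y := (le_max_left _ _).trans hY
  have hYe : Real.exp B ≤ Y := by
    refine (Nat.le_ceil _).trans ?_
    exact_mod_cast (le_max_right _ _).trans hY
  have hYp : (0 : ℝ) < Y := lt_of_lt_of_le (Real.exp_pos _) hYe
  have hYn : 1 ≤ Y := by
    have : 0 < Y := by exact_mod_cast hYp
    exact this
  have hYB : B ≤ Real.log Y := (Real.le_log_iff_exp_le hYp).2 hYe
  obtain ⟨L, hLd⟩ : ∃ L : ℝ, L = Real.log Y := ⟨_, rfl⟩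
  obtain ⟨E, hEd⟩ : ∃ E : ℝ, E = EE l Y := ⟨_, rfl⟩
  obtain ⟨H, hHd⟩ : ∃ H : ℝ, H = HH l Y := ⟨_, rfl⟩
  obtain ⟨G, hGd⟩ : ∃ G : ℝ, G = GG l Y := ⟨_, rfl⟩
  have hH := h1 Y hY1 l hlp hl1 hlY
  have hE0 : 0 < E := by rw [hEd]; exact Real.exp_pos _
  have hLE : 1 / δ ≤ Real.log Y * EE l Y := by
    refine SV_LE l hl3 Y (1 / δ) ?_ ?_
    · rw [le_div_iff₀ hδ0]; linarith
    · linarith
  obtain ⟨S, hSd⟩ : ∃ S : ℝ, S = ∑ m ∈ SV_F l Y, Real.log m := ⟨_, rfl⟩
  have hG0 : 0 ≤ G := by rw [hGd, SV_G]; positivity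
  have hSL : G * L - S ≤ Y := by
    have := SV_logs l Y hYn
    rw [Finset.sum_sub_distrib, Finset.sum_const, nsmul_eq_mul, ← SV_G, ← hSd, ← hGd, ← hLd] at this
    exact this
  have hSG : S ≤ G * L := by
    rw [hSd, hGd, SV_G, hLd, ← nsmul_eq_mul, ← Finset.sum_const]
    refine Finset.sum_le_sum fun m hm => ?_
    have hm' := (SV_mem l Y m).1 hm
    exact Real.log_le_log (by exact_mod_cast hm'.1.1) (by exact_mod_cast hm'.1.2)
  have hSup : S ≤ (1 + δ) * (Y * H) + C3 * G := by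
    rw [hSd]
    refine (SV_up l Y).trans ?_
    calc ∑ m ∈ SV_F l Y, Chebyshev.psi ((Y / m : ℕ) : ℝ)
        ≤ ∑ m ∈ SV_F l Y, ((1 + δ) * (Y * ((1 : ℝ) / m)) + C3) := by
          refine Finset.sum_le_sum fun m hm => ?_
          have h4 := (h3 (Y / m)).1
          have h5 : ((Y / m : ℕ) : ℝ) ≤ (Y : ℝ) / m := Nat.cast_div_le
          have h6 : (Y : ℝ) * ((1 : ℝ) / m) = Y / m := by ring
          rw [h6]
          nlinarith
      _ = _ := by
          rw [Finset.sum_add_distrib, ← Finset.mul_sum, ← Finset.mul_sum, ← SV_H, Finset.sum_const,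
            nsmul_eq_mul, ← SV_G, ← hHd, ← hGd]
          ring
  have hSlow : (1 - 2 * δ) * (Y * H) - C * G ≤ S := by
    rw [hSd]
    refine le_trans ?_ (SV_low l Y)
    calc (1 - 2 * δ) * (Y * H) - C * G
        = ∑ m ∈ SV_F l Y, ((1 - 2 * δ) * (Y * ((1 : ℝ) / m)) - C) := by
          rw [Finset.sum_sub_distrib, ← Finset.mul_sum, ← Finset.mul_sum, ← SV_H, Finset.sum_const,
            nsmul_eq_mul, ← SV_G, ← hHd, ← hGd]
          ring
      _ ≤ _ := by
          refine Finset.sum_le_sum fun m hm => ?_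
          have hm1 := ((SV_mem l Y m).1 hm).1.1
          rw [SV_P_sum]
          have h4 := (h3 (Y / m)).2
          have h5 := h2 l hlp hl2 (Y / m)
          have h6 : (Y : ℝ) * ((1 : ℝ) / m) = Y / m := by ring
          have h7 : (Y : ℝ) / m ≤ ((Y / m : ℕ) : ℝ) + 1 := by
            have hmr : (0 : ℝ) < m := by exact_mod_cast hm1
            rw [div_le_iff₀ hmr]
            have h8 := (Nat.lt_mul_div_succ Y hm1).le
            have h9 : (Y : ℝ) ≤ (m : ℝ) * (((Y / m : ℕ) : ℝ) + 1) := by exact_mod_cast h8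
            linarith
          rw [h6, hC]
          nlinarith
  rw [← hLd, ← hEd] at hLE
  rw [← hLd, ← hEd, ← hHd] at hH
  rw [← hGd, ← hEd]
  rw [← hLd] at hYB
  have hL0 : 0 < L := by
    have : (0 : ℝ) ≤ (1 / δ) ^ 2 := by positivity
    linarith
  have hCL : C ≤ δ * L := by
    have h4 : C / δ ≤ L := by
      have : (0 : ℝ) ≤ (1 / δ) ^ 2 := by positivity
      linarith
    rw [div_le_iff₀ hδ0] at h4
    linarith
  have hC3L : C3 ≤ δ * L := by linarith
  obtain ⟨W, hW⟩ : ∃ W : ℝ, W = (Y : ℝ) * E := ⟨_, rfl⟩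
  have hW0 : 0 < W := by rw [hW]; positivity
  have hHb := abs_le.1 hH
  have hYH1 : (1 - δ) * (L * W) ≤ Y * H := by
    have := mul_le_mul_of_nonneg_left (show (1 - δ) * (L * E) ≤ H by linarith) hYp.le
    rw [hW]; linarith
  have hYH2 : Y * H ≤ (1 + δ) * (L * W) := by
    have := mul_le_mul_of_nonneg_left (show H ≤ (1 + δ) * (L * E) by linarith) hYp.le
    rw [hW]; linarith
  have hYd : (Y : ℝ) ≤ δ * (L * W) := by
    rw [div_le_iff₀ hδ0] at hLE
    have := mul_le_mul_of_nonneg_left hLE hYp.le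
    rw [hW]; linarith
  have hLW : 0 < L * W := mul_pos hL0 hW0
  rw [← hW, abs_le]
  constructor
  · -- lower bound
    have h4 : (1 - 2 * δ) * (Y * H) ≤ G * L + C * G := by linarith
    have h5 : (1 - 2 * δ) * ((1 - δ) * (L * W)) ≤ (1 - 2 * δ) * (Y * H) :=
      mul_le_mul_of_nonneg_left hYH1 (by linarith)
    have h6 : C * G ≤ δ * L * G := mul_le_mul_of_nonneg_right hCL hG0
    have h7 : L * ((1 - 3 * δ) * W) ≤ L * ((1 + δ) * G) := by
      have : (1 - 3 * δ) * (L * W) ≤ (1 - 2 * δ) * ((1 - δ) * (L * W)) := by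
        have e : (1 - 2 * δ) * ((1 - δ) * (L * W)) = (1 - 3 * δ) * (L * W) + 2 * δ ^ 2 * (L * W) := by
          ring
        have : 0 ≤ 2 * δ ^ 2 * (L * W) := by positivity
        linarith
      linarith
    have h8 := le_of_mul_le_mul_left h7 hL0
    have h9 : (1 + δ) * ((1 - ε) * W) ≤ (1 + δ) * G := by
      refine le_trans ?_ h8
      have : (1 + δ) * ((1 - ε) * W) = ((1 - 3 * δ) - (ε - 4 * δ) - ε * δ) * W := by ring
      rw [this]
      refine mul_le_mul_of_nonneg_right ?_ hW0.le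
      have : 0 ≤ ε * δ := by positivity
      linarith
    have hp : 0 < 1 + δ := by linarith
    have h10 : (1 - ε) * W ≤ G := le_of_mul_le_mul_left h9 hp
    linarith
  · -- upper bound
    have h4 : G * L ≤ (1 + δ) * (Y * H) + C3 * G + Y := by linarith
    have h5 : (1 + δ) * (Y * H) ≤ (1 + δ) * ((1 + δ) * (L * W)) :=
      mul_le_mul_of_nonneg_left hYH2 (by linarith)
    have h6 : C3 * G ≤ δ * L * G := mul_le_mul_of_nonneg_right hC3L hG0
    have h7 : L * ((1 - δ) * G) ≤ L * (((1 + δ) ^ 2 + δ) * W) := by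
      have e : L * (((1 + δ) ^ 2 + δ) * W) = (1 + δ) * ((1 + δ) * (L * W)) + δ * (L * W) := by ring
      rw [e]
      linarith
    have h8 := le_of_mul_le_mul_left h7 hL0
    have h9 : (1 - δ) * G ≤ (1 - δ) * ((1 + ε) * W) := by
      refine h8.trans ?_
      have e : (1 - δ) * ((1 + ε) * W) = ((1 - δ) * (1 + ε)) * W := by ring
      rw [e]
      refine mul_le_mul_of_nonneg_right ?_ hW0.le
      have h11 : (1 - δ) * (1 + ε) = (1 + δ) ^ 2 + δ + ((1 - δ) * (ε - 10 * δ) +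
        δ * (6 - 11 * δ)) := by ring
      have h12 : 0 ≤ (1 - δ) * (ε - 10 * δ) := mul_nonneg (by linarith) (by linarith)
      have h13 : 0 ≤ δ * (6 - 11 * δ) := mul_nonneg hδ0.le (by linarith)
      linarith
    have hp : 0 < 1 - δ := by linarith
    have h10 : G ≤ (1 + ε) * W := le_of_mul_le_mul_left h9 hp
    linarith

end Pool.Agent.H295R3.NA
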